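import Pool.Agent.Helper80_RS2.Stmts

/-!
Squad RS2, module BMX.
-/

set_option autoImplicit false

open SimpleGraph

namespace Pool.Agent.RS81.H21

open Pool.Agent.RS80 Pool.Agent.RS81

variable {V K : Type}

/-- an edge at an isolated vertex creates no copy of `B` -/
theorem add_edge_free {B : SimpleGraph V} (hB : TwoConn B) {R : SimpleGraph K} (hR : B.Free R)
    {r x : K} (h0 : ∀ y, ¬ R.Adj r y) : B.Free (R ⊔ edge r x) := by
  rintro ⟨f⟩
  have hinj := f.injective
  have nbr : ∀ y, (R ⊔ edge r x).Adj r y → y = x := by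
    intro y hy
    rw [sup_adj, edge_adj] at hy
    rcases hy with hy | ⟨hy | hy, hne⟩
    · exact absurd hy (h0 y)
    · exact hy.2
    · exact absurd hy.2.symm (fun h => hne (by rw [← h]))
  have hr : ∀ v, f v ≠ r := by
    intro v hv
    obtain ⟨u, hu⟩ := hB.exists_adj v
    obtain ⟨w, hw⟩ := hB.exists_adj_ne v u
    have nbr' : ∀ a y, a = r → (R ⊔ edge r x).Adj a y → y = x := by
      intro a y ha hy
      rw [ha] at hy
      exact nbr y hy
    have h1 : (R ⊔ edge r x).Adj (f v) (f u) := f.toHom.map_adj hu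
    have h2 : (R ⊔ edge r x).Adj (f v) (f w) := f.toHom.map_adj hw.2
    have e1 : f u = x := nbr' _ _ hv h1
    have e2 : f w = x := nbr' _ _ hv h2
    exact hw.1 (hinj (e2.trans e1.symm))
  refine hR ⟨⟨⟨f, fun {a b} hab => ?_⟩, hinj⟩⟩
  have h1 := f.toHom.map_adj hab
  have h2 : (R ⊔ edge r x).Adj (f a) (f b) := h1
  rw [sup_adj, edge_adj] at h2
  rcases h2 with h2 | ⟨h2 | h2, -⟩
  · exact h2
  · exact absurd h2.1 (hr a)
  · exact absurd h2.2 (hr b)

/-- every good cover sees both colours at `r` -/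
def Both (B : SimpleGraph V) (G : SimpleGraph K) (r : K) : Prop :=
  ∀ R S, Good B G R S → (∃ x, R.Adj r x) ∧ (∃ y, S.Adj r y)

theorem Good.swap {B : SimpleGraph V} {G R S : SimpleGraph K} (h : Good B G R S) :
    Good B G S R := ⟨by rw [sup_comm]; exact h.1, h.2.2, h.2.1⟩

theorem good_add {B : SimpleGraph V} (hB : TwoConn B) {G R S : SimpleGraph K}
    (h : Good B G R S) {r x : K} (h0 : ∀ y, ¬ R.Adj r y) : Good B (G ⊔ edge r x) (R ⊔ edge r x) S :=
  ⟨by rw [← h.1]; ac_rfl, add_edge_free hB h.2.1 h0, h.2.2⟩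

theorem inC_mono {B : SimpleGraph V} {G G' : SimpleGraph K} (h : InC B G) (hG : G' ≤ G) :
    InC B G' := by
  obtain ⟨R, S, h1, h2, h3⟩ := h
  refine ⟨R ⊓ G', S ⊓ G', ?_, ?_, ?_⟩
  · rw [← inf_sup_right, h1, inf_eq_right.2 hG]
  · exact fun hc => h2 (hc.trans (IsContained.of_le inf_le_left))
  · exact fun hc => h3 (hc.trans (IsContained.of_le inf_le_left))

theorem bmx (ktt : KttStmt) : BmxStmt := by
  intro V _ B hB hcol
  obtain ⟨t, ht⟩ := ktt V B hcol
  -- an edge-maximal graph with a `B`-free cover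
  have hne : ({G : SimpleGraph (Fin (2 * t)) | InC B G}).Nonempty := by
    obtain ⟨v⟩ : Nonempty V := hB.2.1.nonempty
    obtain ⟨u, hu⟩ := hB.exists_adj v
    have hbot : B.Free (⊥ : SimpleGraph (Fin (2 * t))) := by
      rintro ⟨f⟩
      exact f.toHom.map_adj hu
    exact ⟨⊥, ⊥, ⊥, by simp, hbot, hbot⟩
  obtain ⟨G0, hG0⟩ := (Set.toFinite {G : SimpleGraph (Fin (2 * t)) | InC B G}).exists_maximal hne
  have hG0C : InC B G0 := hG0.prop
  -- it is not complete
  obtain ⟨r, v, hrv, hadj⟩ : ∃ r v : Fin (2 * t), r ≠ v ∧ ¬ G0.Adj r v := by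
    by_contra hcon
    push Not at hcon
    apply ht _ G0 hG0C
    let g : Fin t ⊕ Fin t → Fin (2 * t) := fun x => match x with
      | .inl i => ⟨i.1, by omega⟩
      | .inr i => ⟨t + i.1, by omega⟩
    have hg : Function.Injective g := by
      rintro (i | i) (j | j) h
      · have := congrArg Fin.val h
        simp only [g] at this
        exact congrArg Sum.inl (Fin.ext this)
      · have := congrArg Fin.val h
        simp only [g] at this
        omega
      · have := congrArg Fin.val h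
        simp only [g] at this
        omega
      · have := congrArg Fin.val h
        simp only [g] at this
        exact congrArg Sum.inr (Fin.ext (by omega))
    exact ⟨⟨⟨g, fun {a b} hab => hcon _ _ (fun h => hab.ne (hg h))⟩, hg⟩⟩
  -- every cover sees both colours at `r`
  have hboth1 : ∀ R S, Good B G0 R S → ∃ x, R.Adj r x := by
    intro R S h
    by_contra hcon
    rw [not_exists] at hcon
    have h1 : InC B (G0 ⊔ edge r v) := ⟨_, _, good_add hB h hcon⟩
    have h2 := hG0.le_of_ge h1 le_sup_left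
    apply hadj
    apply h2
    rw [sup_adj, edge_adj]
    exact Or.inr ⟨Or.inl ⟨rfl, rfl⟩, hrv⟩
  have hboth : Both B G0 r := fun R S h => ⟨hboth1 R S h, hboth1 S R (Good.swap h)⟩
  -- a minimal subgraph with this property
  obtain ⟨M, hM⟩ := (Set.toFinite {G : SimpleGraph (Fin (2 * t)) | G ≤ G0 ∧ Both B G r}).exists_minimal
    ⟨G0, le_rfl, hboth⟩
  obtain ⟨R, S, hRS⟩ := inC_mono hG0C hM.prop.1
  obtain ⟨x, hx⟩ := (hM.prop.2 R S hRS).1
  have hMx : M.Adj r x := by rw [← hRS.1]; exact Or.inl hx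
  obtain ⟨M', hM'⟩ : ∃ M', M' = M \ edge r x := ⟨_, rfl⟩
  have hle : M' ≤ M := by rw [hM']; exact sdiff_le
  have hsup : M' ⊔ edge r x = M := by
    rw [hM', sdiff_sup_cancel]
    exact (edge_le_iff M).2 (Or.inr hMx)
  have hnot : ¬ Both B M' r := by
    intro h
    have := hM.le_of_le ⟨hle.trans hM.prop.1, h⟩ hle
    have h2 := this hMx
    rw [hM', sdiff_adj, edge_adj] at h2
    exact h2.2 ⟨Or.inl ⟨rfl, rfl⟩, hMx.ne⟩
  -- a cover of `M'` without edges of one colour at `r`
  obtain ⟨R', S', h', h0⟩ : ∃ R' S', Good B M' R' S' ∧ ∀ y, ¬ R'.Adj r y := by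
    unfold Both at hnot
    push Not at hnot
    obtain ⟨R', S', h', h1⟩ := hnot
    by_cases h2 : ∃ x, R'.Adj r x
    · exact ⟨S', R', Good.swap h', fun y hy => h1 h2 y hy⟩
    · rw [not_exists] at h2
      exact ⟨R', S', h', h2⟩
  have hgood := good_add (x := x) hB h' h0
  rw [hsup] at hgood
  refine ⟨Fin (2 * t), inferInstance, M, r, hM.prop.2, _, _, hgood, ?_⟩
  have : (R' ⊔ edge r x).neighborSet r = {x} := by
    ext y
    rw [mem_neighborSet, sup_adj, edge_adj, Set.mem_singleton_iff]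
    constructor
    · rintro (h | ⟨h | h, hne⟩)
      · exact absurd h (h0 y)
      · exact h.2
      · exact absurd h.2.symm (fun h3 => hne (by rw [← h3]))
    · rintro rfl
      exact Or.inr ⟨Or.inl ⟨rfl, rfl⟩, hMx.ne⟩
  rw [this, Set.ncard_singleton]

end Pool.Agent.RS81.H21
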