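import Pool.Agent.Helper80_RS2.Stmts
import Pool.Agent.Helper21_RS.Cyc

/-!
Squad RS2, modules CYC and CY4.
-/

set_option autoImplicit false

open SimpleGraph

namespace Pool.Agent.RS81.H21

open Pool.Agent.RS80 Pool.Agent.RS81

theorem arrows_mono {V W W' : Type} {G : SimpleGraph V} {H : SimpleGraph W} {H' : SimpleGraph W'}
    (h : H ⊑ H') (ha : Arrows G H') : Arrows G H := by
  intro R hR
  rcases ha R hR with h1 | h1
  · exact Or.inl (h.trans h1)
  · exact Or.inr (h.trans h1)

/-- one pendant edge sits in `pendL` -/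
theorem pend_le_pendL {V : Type} (B : SimpleGraph V) (ℓ : V → ℕ) (v : V) (hv : 0 < ℓ v) :
    pend B {v} ⊑ pendL B ℓ := by
  refine ⟨⟨⟨fun x => match x with
    | .inl u => .inl u
    | .inr z => .inr ⟨z.1, ⟨0, by rw [Set.mem_singleton_iff.1 z.2]; exact hv⟩⟩, ?_⟩, ?_⟩⟩
  · rintro (u | z) (w | z') h
    · exact h
    · exact h
    · exact h
    · exact h
  · rintro (u | ⟨z, hz⟩) (w | ⟨z', hz'⟩) h
    · simpa using h
    · cases h
    · cases h
    · have h1 := Set.mem_singleton_iff.1 hz
      have h2 := Set.mem_singleton_iff.1 hz'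
      subst h1
      subst h2
      rfl

theorem cyc : CycStmt := by
  intro k hk
  obtain ⟨h1, h2, h3⟩ := Pool.Agent.RS80.H21.cyc k hk
  refine ⟨h1, h2, fun ℓ hl heq => ?_⟩
  obtain ⟨v, hv⟩ := hl
  apply h3 {v} (Set.singleton_nonempty v)
  intro n G
  refine ⟨fun h => arrows_mono (pend_le_pendL _ ℓ v hv) ((heq n G).1 h), fun h => ?_⟩
  refine arrows_mono ?_ h
  exact ⟨⟨⟨Sum.inl, fun {_ _} h => h⟩, Sum.inl_injective⟩⟩

/-! ### The cycle of length 4 -/

/-- number of the edge `ij` of `K_6` -/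
def idx (i j : Fin 6) : ℕ :=
  let a := min i.val j.val
  let b := max i.val j.val
  b * (b - 1) / 2 + a

/-- the pair with a given number -/
def pr : ℕ → Fin 6 × Fin 6
  | 0 => (0, 1)
  | 1 => (0, 2)
  | 2 => (1, 2)
  | 3 => (0, 3)
  | 4 => (1, 3)
  | 5 => (2, 3)
  | 6 => (0, 4)
  | 7 => (1, 4)
  | 8 => (2, 4)
  | 9 => (3, 4)
  | 10 => (0, 5)
  | 11 => (1, 5)
  | 12 => (2, 5)
  | 13 => (3, 5)
  | _ => (4, 5)

theorem pr_idx : ∀ i j : Fin 6, i ≠ j → pr (idx i j) = (i, j) ∨ pr (idx i j) = (j, i) := by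
  decide

/-- the 45 cycles of length 4, with their edge masks -/
def ent : List (ℕ × Fin 6 × Fin 6 × Fin 6 × Fin 6) :=
  [(30, 0, 2, 1, 3), (45, 0, 1, 2, 3), (51, 0, 1, 3, 2), (198, 0, 2, 1, 4), (216, 0, 3, 1, 4),
   (325, 0, 1, 2, 4), (360, 0, 3, 2, 4), (387, 0, 1, 4, 2), (432, 1, 3, 2, 4), (593, 0, 1, 3, 4),
   (610, 0, 2, 3, 4), (649, 0, 1, 4, 3), (676, 1, 2, 3, 4), (778, 0, 2, 4, 3), (788, 1, 2, 4, 3),
   (3078, 0, 2, 1, 5), (3096, 0, 3, 1, 5), (3264, 0, 4, 1, 5), (5125, 0, 1, 2, 5),
   (5160, 0, 3, 2, 5), (5440, 0, 4, 2, 5), (6147, 0, 1, 5, 2), (6192, 1, 3, 2, 5),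
   (6528, 1, 4, 2, 5), (9233, 0, 1, 3, 5), (9250, 0, 2, 3, 5), (9792, 0, 4, 3, 5),
   (10249, 0, 1, 5, 3), (10276, 1, 2, 3, 5), (10880, 1, 4, 3, 5), (12298, 0, 2, 5, 3),
   (12308, 1, 2, 5, 3), (13056, 2, 4, 3, 5), (17537, 0, 1, 4, 5), (17666, 0, 2, 4, 5),
   (17928, 0, 3, 4, 5), (18497, 0, 1, 5, 4), (18692, 1, 2, 4, 5), (18960, 1, 3, 4, 5),
   (20546, 0, 2, 5, 4), (20612, 1, 2, 5, 4), (21024, 2, 3, 4, 5), (24648, 0, 3, 5, 4),
   (24720, 1, 3, 5, 4), (24864, 2, 3, 5, 4)]

/-- one entry is correct -/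
def okE (e : ℕ × Fin 6 × Fin 6 × Fin 6 × Fin 6) : Bool :=
  match e with
  | (m, a, b, c, d) =>
    m.testBit (idx a b) && m.testBit (idx b c) && m.testBit (idx c d) && m.testBit (idx d a) &&
      decide (a ≠ b) && decide (b ≠ c) && decide (c ≠ d) && decide (d ≠ a) && decide (a ≠ c) &&
      decide (b ≠ d)

theorem ent_ok : ent.all okE = true := by decide

/-- the search; `r`, `b` are the masks of the edges coloured so far -/
def chk (ms : List ℕ) : ℕ → ℕ → ℕ → ℕ → Bool
  | 0, _, r, b => ms.any (fun m => m &&& r == m || m &&& b == m)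
  | n + 1, k, r, b => ms.any (fun m => m &&& r == m || m &&& b == m) ||
      (chk ms n (k + 1) (r ||| 2 ^ k) b && chk ms n (k + 1) r (b ||| 2 ^ k))

theorem sub_of_land {m r : ℕ} (h : m &&& r = m) (i : ℕ) (hi : m.testBit i = true) :
    r.testBit i = true := by
  have := congrArg (fun x => x.testBit i) h
  simp only [Nat.testBit_and, hi, Bool.true_and] at this
  exact this

theorem chk_sound (ms : List ℕ) (f : ℕ → Bool) : ∀ n k r b, chk ms n k r b = true →
    (∀ i, r.testBit i = true → f i = true) → (∀ i, b.testBit i = true → f i = false) →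
    ∃ m ∈ ms, (∀ i, m.testBit i = true → f i = true) ∨ (∀ i, m.testBit i = true → f i = false) := by
  have base : ∀ r b, ms.any (fun m => m &&& r == m || m &&& b == m) = true →
      (∀ i, r.testBit i = true → f i = true) → (∀ i, b.testBit i = true → f i = false) →
      ∃ m ∈ ms, (∀ i, m.testBit i = true → f i = true) ∨
        (∀ i, m.testBit i = true → f i = false) := by
    intro r b h hr hb
    rw [List.any_eq_true] at h
    obtain ⟨m, hm, h⟩ := h
    rw [Bool.or_eq_true, beq_iff_eq, beq_iff_eq] at h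
    rcases h with h | h
    · exact ⟨m, hm, Or.inl fun i hi => hr i (sub_of_land h i hi)⟩
    · exact ⟨m, hm, Or.inr fun i hi => hb i (sub_of_land h i hi)⟩
  intro n
  induction n with
  | zero => intro k r b h hr hb; exact base r b h hr hb
  | succ n ih =>
    intro k r b h hr hb
    rw [chk, Bool.or_eq_true, Bool.and_eq_true] at h
    rcases h with h | ⟨h1, h2⟩
    · exact base r b h hr hb
    · have tb : ∀ x i, (x ||| 2 ^ k).testBit i = true → x.testBit i = true ∨ i = k := by
        intro x i hi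
        rw [Nat.testBit_or, Bool.or_eq_true, Nat.testBit_two_pow] at hi
        rcases hi with hi | hi
        · exact Or.inl hi
        · exact Or.inr (by simpa using (of_decide_eq_true hi).symm)
      by_cases hk : f k = true
      · refine ih (k + 1) _ _ h1 (fun i hi => ?_) hb
        rcases tb r i hi with h | h
        · exact hr i h
        · rw [h]; exact hk
      · refine ih (k + 1) _ _ h2 hr (fun i hi => ?_)
        rcases tb b i hi with h | h
        · exact hb i h
        · rw [h]; simpa using hk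

set_option maxRecDepth 20000 in
theorem chk_true : chk (ent.map Prod.fst) 15 0 0 0 = true := by decide

/-- four vertices give a cycle -/
theorem four {V : Type} (G : SimpleGraph V) (a b c d : V) (h1 : G.Adj a b) (h2 : G.Adj b c)
    (h3 : G.Adj c d) (h4 : G.Adj d a) (n1 : a ≠ c) (n2 : b ≠ d) : cycleGraph 4 ⊑ G := by
  refine ⟨⟨⟨![a, b, c, d], ?_⟩, ?_⟩⟩
  · intro x y h
    rw [cycleGraph_adj'] at h
    fin_cases x <;> fin_cases y <;>
      first
        | (exfalso; revert h; decide)
        | exact h1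
        | exact h2
        | exact h3
        | exact h4
        | exact h1.symm
        | exact h2.symm
        | exact h3.symm
        | exact h4.symm
  · intro x y h
    fin_cases x <;> fin_cases y <;> simp_all [h1.ne, h2.ne, h3.ne, h4.ne, h1.ne', h2.ne', h3.ne',
      h4.ne', n1.symm, n2.symm]

theorem k6 : Arrows (⊤ : SimpleGraph (Fin 6)) (cycleGraph 4) := by
  classical
  intro R _
  obtain ⟨m, hm, h⟩ := chk_sound (ent.map Prod.fst)
    (fun i => decide (R.Adj (pr i).1 (pr i).2)) 15 0 0 0 chk_true (by simp) (by simp)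
  obtain ⟨⟨m', a, b, c, d⟩, he, rfl⟩ := List.mem_map.1 hm
  have hok := List.all_eq_true.1 ent_ok _ he
  simp only [okE, Bool.and_eq_true, decide_eq_true_eq] at hok
  obtain ⟨⟨⟨⟨⟨⟨⟨⟨⟨t1, t2⟩, t3⟩, t4⟩, n1⟩, n2⟩, n3⟩, n4⟩, n5⟩, n6⟩ := hok
  simp only at h
  have adj : ∀ i j : Fin 6, i ≠ j → (R.Adj (pr (idx i j)).1 (pr (idx i j)).2 ↔ R.Adj i j) := by
    intro i j hij
    rcases pr_idx i j hij with h | h <;> rw [h]
    exact R.adj_comm _ _
  rcases h with h | h
  · left
    refine four R a b c d ?_ ?_ ?_ ?_ n5 n6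
    · exact (adj a b n1).1 (of_decide_eq_true (h _ t1))
    · exact (adj b c n2).1 (of_decide_eq_true (h _ t2))
    · exact (adj c d n3).1 (of_decide_eq_true (h _ t3))
    · exact (adj d a n4).1 (of_decide_eq_true (h _ t4))
  · right
    have key : ∀ i j : Fin 6, i ≠ j → m'.testBit (idx i j) = true →
        ((⊤ : SimpleGraph (Fin 6)) \ R).Adj i j := by
      intro i j hij ht
      refine ⟨hij, fun hR => ?_⟩
      have := of_decide_eq_false (h _ ht)
      exact this ((adj i j hij).2 hR)
    exact four _ a b c d (key a b n1 t1) (key b c n2 t2) (key c d n3 t3) (key d a n4 t4) n5 n6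

theorem cy4 : Cy4Stmt := by
  refine ⟨Pool.Agent.RS80.H21.twoConn_cycle (by norm_num), ?_, ?_⟩
  · have h1 := (cycleGraph.bicoloring_of_even 4 (by decide)).colorable
    rwa [Fintype.card_bool] at h1
  · intro ℓ hl heq
    have harr := (heq 6 ⊤).1 k6
    -- red: the star at 0
    let R : SimpleGraph (Fin 6) :=
      { Adj := fun x y => (x = 0 ∧ y ≠ 0) ∨ (x ≠ 0 ∧ y = 0)
        symm := ⟨fun x y h => h.symm.imp (fun h => ⟨h.2, h.1⟩) (fun h => ⟨h.2, h.1⟩)⟩
        loopless := ⟨fun x h => by rcases h with h | h <;> exact absurd h.1 (by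
          first
            | exact fun h' => h.2 h'
            | exact fun h' => h' h.2)⟩ }
    rcases harr R le_top with h | h
    · -- no cycle in a star
      obtain ⟨f⟩ := h
      have e1 : (pendL (cycleGraph 4) ℓ).Adj (Sum.inl 0) (Sum.inl 1) := by
        change (cycleGraph 4).Adj 0 1
        rw [cycleGraph_adj']; decide
      have e2 : (pendL (cycleGraph 4) ℓ).Adj (Sum.inl 2) (Sum.inl 3) := by
        change (cycleGraph 4).Adj 2 3
        rw [cycleGraph_adj']; decide
      have a1 := f.toHom.map_adj e1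
      have a2 := f.toHom.map_adj e2
      have inj := f.injective
      have star : ∀ x y, R.Adj x y → x = 0 ∨ y = 0 := by
        intro x y h
        rcases h with h | h
        · exact Or.inl h.1
        · exact Or.inr h.2
      rcases star _ _ a1 with b1 | b1 <;> rcases star _ _ a2 with b2 | b2
      · have := inj (b1.trans b2.symm); simp at this
      · have := inj (b1.trans b2.symm); simp at this
      · have := inj (b1.trans b2.symm); simp at this
      · have := inj (b1.trans b2.symm); simp at this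
    · -- too few vertices in a `K_5`
      obtain ⟨f⟩ := h
      have hne : ∀ x, f x ≠ 0 := by
        intro x hx
        obtain ⟨y, hy⟩ : ∃ y, (pendL (cycleGraph 4) ℓ).Adj x y := by
          rcases x with x | z
          · refine ⟨Sum.inl (x + 1), ?_⟩
            change (cycleGraph 4).Adj x (x + 1)
            rw [cycleGraph_adj']
            fin_cases x <;> decide
          · exact ⟨Sum.inl z.1, rfl⟩
        have := f.toHom.map_adj hy
        have h2 : ((⊤ : SimpleGraph (Fin 6)) \ R).Adj (f x) (f y) := this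
        rw [hx] at h2
        exact h2.2 (Or.inl ⟨rfl, fun h => h2.1 h.symm⟩)
      have hcard := Fintype.card_le_of_injective
        (fun x => (⟨f x, hne x⟩ : {y : Fin 6 // y ≠ 0}))
        (fun x y h => f.injective (congrArg Subtype.val h))
      have c1 : Fintype.card (Fin 4 ⊕ Σ v, Fin (ℓ v)) = 4 + ∑ v, ℓ v := by
        simp [Fintype.card_sigma]
      have c2 : Fintype.card {y : Fin 6 // y ≠ 0} = 5 := by decide
      rw [c1, c2] at hcard
      omega

end Pool.Agent.RS81.H21
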